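import Mathlib

/-!
# An operator space over an octahedral space which is not octahedral
-/

open Filter Topology Metric Set
open scoped ENNReal

namespace Pool.Agent.Results.MP_372fbd_an.HlawkaNotOctahedral

/-- Octahedral spaces. -/
def OH (𝕜 Z : Type) [RCLike 𝕜] [NormedAddCommGroup Z] [NormedSpace 𝕜 Z] : Prop :=
  ∀ E : Submodule 𝕜 Z, FiniteDimensional 𝕜 E → ∀ ε : ℝ, 0 < ε →
    ∃ y : Z, ‖y‖ = 1 ∧ ∀ x ∈ E, (1 - ε) * (‖x‖ + ‖y‖) ≤ ‖x + y‖

/-- The dual space of `X` as a normed space. -/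
def Dual (𝕜 X : Type) [RCLike 𝕜] [NormedAddCommGroup X] [NormedSpace 𝕜 X] : Type :=
  StrongDual 𝕜 X

noncomputable instance (𝕜 X : Type) [RCLike 𝕜] [NormedAddCommGroup X] [NormedSpace 𝕜 X] :
    NormedAddCommGroup (Dual 𝕜 X) := inferInstanceAs (NormedAddCommGroup (StrongDual 𝕜 X))

noncomputable instance (𝕜 X : Type) [RCLike 𝕜] [NormedAddCommGroup X] [NormedSpace 𝕜 X] :
    NormedSpace 𝕜 (Dual 𝕜 X) := inferInstanceAs (NormedSpace 𝕜 (StrongDual 𝕜 X))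

/-- A functional as an element of the dual space. -/
def toD {𝕜 X : Type} [RCLike 𝕜] [NormedAddCommGroup X] [NormedSpace 𝕜 X]
    (f : StrongDual 𝕜 X) : Dual 𝕜 X := f

/-- The operator `T : X* → Y` is weak*-to-weakly continuous. -/
def WeakStarWeak {𝕜 X Y : Type} [RCLike 𝕜] [NormedAddCommGroup X] [NormedSpace 𝕜 X]
    [NormedAddCommGroup Y] [NormedSpace 𝕜 Y] (T : Dual 𝕜 X →L[𝕜] Y) : Prop :=
  Continuous (fun f : WeakDual 𝕜 X => toWeakSpace 𝕜 Y (T (toD (WeakDual.toStrongDual f))))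

section admissible

variable {𝕜 X Y : Type} [RCLike 𝕜] [NormedAddCommGroup X] [NormedSpace 𝕜 X]
  [NormedAddCommGroup Y] [NormedSpace 𝕜 Y]

/-- The subspace `H` of `L(X*, Y)` contains `X ⊗ Y`. -/
def ContainsTensors (H : Submodule 𝕜 (Dual 𝕜 X →L[𝕜] Y)) : Prop :=
  ∀ (x : X) (y : Y) (T : Dual 𝕜 X →L[𝕜] Y), (∀ f : StrongDual 𝕜 X, T (toD f) = f x • y) → T ∈ H

/-- All elements of `H` are weak*-to-weakly continuous. -/
def AllWeakStarWeak (H : Submodule 𝕜 (Dual 𝕜 X →L[𝕜] Y)) : Prop := ∀ T ∈ H, WeakStarWeak T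

/-- The closed subspaces of the problem. -/
def Admissible (H : Submodule 𝕜 (Dual 𝕜 X →L[𝕜] Y)) : Prop :=
  IsClosed (H : Set (Dual 𝕜 X →L[𝕜] Y)) ∧ ContainsTensors H ∧ AllWeakStarWeak H

/-- The subspace `H` of `L(X*, Y)` is octahedral. -/
def OHsub (H : Submodule 𝕜 (Dual 𝕜 X →L[𝕜] Y)) : Prop := OH 𝕜 ↥H

end admissible

/-! ### Hlawka's inequality -/

/-- Hlawka's inequality holds in the space `X`. -/
def Hlawka (X : Type) [NormedAddCommGroup X] : Prop :=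
  ∀ x y z : X, ‖x + y‖ + ‖y + z‖ + ‖z + x‖ ≤ ‖x‖ + ‖y‖ + ‖z‖ + ‖x + y + z‖

lemma hlawka_numeric {a b c p q r s : ℝ} (ha : 0 ≤ a) (hb : 0 ≤ b) (hc : 0 ≤ c)
    (hs : 0 ≤ s) (h1 : p ≤ a + b) (h2 : q ≤ b + c) (h3 : r ≤ c + a)
    (h4 : p ≤ c + s) (h5 : q ≤ a + s) (h6 : r ≤ b + s)
    (hid : a ^ 2 + b ^ 2 + c ^ 2 + s ^ 2 = p ^ 2 + q ^ 2 + r ^ 2) :
    p + q + r ≤ a + b + c + s := by
  by_contra hcon
  push Not at hcon
  have hS : 0 ≤ a + b + c + s := by positivity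
  have k1 : 0 ≤ (a + b - p) * (c + s - p) := mul_nonneg (by linarith) (by linarith)
  have k2 : 0 ≤ (b + c - q) * (a + s - q) := mul_nonneg (by linarith) (by linarith)
  have k3 : 0 ≤ (c + a - r) * (b + s - r) := mul_nonneg (by linarith) (by linarith)
  have key : (a + b + c + s - (p + q + r)) * (a + b + c + s) =
      (a + b - p) * (c + s - p) + (b + c - q) * (a + s - q) + (c + a - r) * (b + s - r) := by
    linear_combination hid
  have h7 : 0 ≤ (a + b + c + s - (p + q + r)) * (a + b + c + s) := by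
    rw [key]; positivity
  rcases hS.eq_or_lt with h8 | h8
  · have e1 : a = 0 := by linarith
    have e2 : b = 0 := by linarith
    have e3 : c = 0 := by linarith
    linarith
  · have h9 : (a + b + c + s - (p + q + r)) * (a + b + c + s) < 0 :=
      mul_neg_of_neg_of_pos (by linarith) h8
    linarith

lemma hlawka_inner {H : Type} [NormedAddCommGroup H] [InnerProductSpace ℝ H] : Hlawka H := by
  intro x y z
  refine hlawka_numeric (norm_nonneg x) (norm_nonneg y) (norm_nonneg z) (norm_nonneg _)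
    (norm_add_le _ _) (norm_add_le _ _) (norm_add_le _ _) ?_ ?_ ?_ ?_
  · have := norm_sub_le (x + y + z) z
    rw [add_sub_cancel_right] at this
    linarith
  · have := norm_sub_le (x + y + z) x
    have e : x + y + z - x = y + z := by abel
    rw [e] at this
    linarith
  · have := norm_sub_le (x + y + z) y
    have e : x + y + z - y = z + x := by abel
    rw [e] at this
    linarith
  · have e1 := norm_add_sq_real (x + y) z
    have e2 := norm_add_sq_real x y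
    have e3 := norm_add_sq_real y z
    have e4 := norm_add_sq_real z x
    rw [inner_add_left] at e1
    rw [real_inner_comm] at e4
    linarith

section

variable (𝕜 : Type) [RCLike 𝕜]

/-- The space `ℓ_1`. -/
abbrev L1 : Type := lp (fun _ : ℕ => 𝕜) 1

variable {𝕜}

lemma norm_L1 (x : L1 𝕜) : ‖x‖ = ∑' n, ‖x n‖ := by
  rw [lp.norm_eq_tsum_rpow (by simp)]
  simp

lemma summable_L1 (x : L1 𝕜) : Summable (fun n => ‖x n‖) := by
  have := (lp.memℓp x).summable (by simp)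
  simpa using this

lemma hlawka_L1 : Hlawka (L1 𝕜) := by
  intro x y z
  let _ : InnerProductSpace ℝ 𝕜 := InnerProductSpace.rclikeToReal 𝕜 𝕜
  simp only [norm_L1]
  rw [← (summable_L1 (x + y)).tsum_add (summable_L1 (y + z)),
    ← ((summable_L1 (x + y)).add (summable_L1 (y + z))).tsum_add (summable_L1 (z + x)),
    ← (summable_L1 x).tsum_add (summable_L1 y),
    ← ((summable_L1 x).add (summable_L1 y)).tsum_add (summable_L1 z),
    ← (((summable_L1 x).add (summable_L1 y)).add (summable_L1 z)).tsum_add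
      (summable_L1 (x + y + z))]
  apply Summable.tsum_le_tsum
  · intro n
    have := hlawka_inner (H := 𝕜) (x n) (y n) (z n)
    simpa only [lp.coeFn_add, Pi.add_apply] using this
  · exact ((summable_L1 (x + y)).add (summable_L1 (y + z))).add (summable_L1 (z + x))
  · exact (((summable_L1 x).add (summable_L1 y)).add (summable_L1 z)).add
      (summable_L1 (x + y + z))

/-- The unit vectors of `ℓ_1`. -/
noncomputable def ee (n : ℕ) : L1 𝕜 := lp.single 1 n (1 : 𝕜)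

lemma norm_ee (n : ℕ) : ‖(ee n : L1 𝕜)‖ = 1 := by
  rw [ee, lp.norm_single (by norm_num)]
  simp

lemma ee_apply (n m : ℕ) : (ee n : L1 𝕜) m = if m = n then 1 else 0 := by
  rw [ee, lp.single_apply]
  by_cases h : m = n
  · subst h; simp
  · simp [h]

lemma norm_add_ee (x : L1 𝕜) (n : ℕ) : ‖x‖ + 1 - 2 * ‖x n‖ ≤ ‖x + ee n‖ := by
  have h1 : ‖x + ee n‖ - ‖x‖ = ∑' m, (‖(x + ee n : L1 𝕜) m‖ - ‖x m‖) := by
    rw [norm_L1, norm_L1, (summable_L1 (x + ee n)).tsum_sub (summable_L1 x)]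
  have h2 : ∑' m, (‖(x + ee n : L1 𝕜) m‖ - ‖x m‖) = ‖(x + ee n : L1 𝕜) n‖ - ‖x n‖ := by
    apply tsum_eq_single n
    intro m hm
    rw [lp.coeFn_add, Pi.add_apply, ee_apply, if_neg hm, add_zero, sub_self]
  rw [h2, lp.coeFn_add, Pi.add_apply, ee_apply, if_pos rfl] at h1
  have h3 : (1 : ℝ) ≤ ‖x n + 1‖ + ‖x n‖ := by
    have := norm_sub_le (x n + 1) (x n)
    rw [add_sub_cancel_left, norm_one] at this
    exact this
  linarith

lemma oh_L1 : OH 𝕜 (L1 𝕜) := by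
  intro E hE ε hε
  have hP : ProperSpace E := FiniteDimensional.proper_rclike 𝕜 E
  set η : ℝ := ε / 4 with hη
  have hη0 : 0 < η := by positivity
  have hc : IsCompact (sphere (0 : E) 1) := isCompact_sphere _ _
  obtain ⟨t, _, hcov⟩ := hc.elim_nhds_subcover (fun x => ball x η)
    (fun x _ => ball_mem_nhds x hη0)
  have h1 : ∀ᶠ n : ℕ in atTop, ∀ v ∈ t, ‖(v : L1 𝕜) n‖ < η := by
    rw [Filter.eventually_all_finset]
    intro v _
    exact (summable_L1 (v : L1 𝕜)).tendsto_atTop_zero.eventually (gt_mem_nhds hη0)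
  obtain ⟨n, hn⟩ := h1.exists
  refine ⟨ee n, norm_ee n, fun x hx => ?_⟩
  have hxn : ‖x n‖ ≤ 2 * η * ‖x‖ := by
    by_cases hx0 : x = 0
    · subst hx0
      rw [lp.coeFn_zero]
      simp
    · have hx0' : 0 < ‖x‖ := norm_pos_iff.2 hx0
      have hxne : (‖x‖ : 𝕜) ≠ 0 := by
        exact_mod_cast hx0'.ne'
      let x' : E := ⟨(‖x‖ : 𝕜)⁻¹ • x, E.smul_mem _ hx⟩
      have hx' : x' ∈ sphere (0 : E) 1 := by
        rw [mem_sphere_zero_iff_norm]
        show ‖(‖x‖ : 𝕜)⁻¹ • x‖ = 1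
        rw [norm_smul, norm_inv, RCLike.norm_ofReal, abs_norm, inv_mul_cancel₀ hx0'.ne']
      obtain ⟨v, hv, hvx⟩ := mem_iUnion₂.1 (hcov hx')
      rw [mem_ball, dist_eq_norm] at hvx
      have h2 : ‖(x' : L1 𝕜) n‖ ≤ 2 * η := by
        have h3 : ‖((x' - v : E) : L1 𝕜) n‖ ≤ ‖((x' - v : E) : L1 𝕜)‖ :=
          lp.norm_apply_le_norm (by simp : (1 : ℝ≥0∞) ≠ 0) _ n
        have h4 : ‖((x' - v : E) : L1 𝕜)‖ < η := hvx
        have h5 : (x' : L1 𝕜) n = ((x' - v : E) : L1 𝕜) n + (v : L1 𝕜) n := by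
          rw [Submodule.coe_sub, lp.coeFn_sub, Pi.sub_apply, sub_add_cancel]
        rw [h5]
        refine (norm_add_le _ _).trans ?_
        have := hn v hv
        linarith
      have h3 : (x' : L1 𝕜) n = (‖x‖ : 𝕜)⁻¹ * x n := rfl
      rw [h3, norm_mul, norm_inv, RCLike.norm_ofReal, abs_norm, inv_mul_le_iff₀ hx0'] at h2
      linarith
  have h2 := norm_add_ee x n
  rw [norm_ee]
  have h3 : 2 * ‖x n‖ ≤ ε * ‖x‖ := by
    rw [hη] at hxn
    linarith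
  have h4 : (1 - ε) * (‖x‖ + 1) = ‖x‖ + 1 - ε * ‖x‖ - ε := by ring
  rw [h4]
  linarith

end

/-! ### The range space -/

section range

variable (𝕜 : Type) [RCLike 𝕜]

/-- The three-dimensional space with the norm given by the maximum of `|φ_1|`, `|φ_2|`, `|φ_3|`,
`|φ_i + φ_j| / 1.9` and `|φ_1 + φ_2 + φ_3| / 2.6`. -/
def YSub : Submodule 𝕜 (Fin 7 → 𝕜) where
  carrier := {v | v 3 = (10 / 19) * (v 0 + v 1) ∧ v 4 = (10 / 19) * (v 1 + v 2) ∧
    v 5 = (10 / 19) * (v 2 + v 0) ∧ v 6 = (5 / 13) * (v 0 + v 1 + v 2)}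
  add_mem' := by
    rintro a b ⟨a1, a2, a3, a4⟩ ⟨b1, b2, b3, b4⟩
    refine ⟨?_, ?_, ?_, ?_⟩
    · rw [Pi.add_apply, Pi.add_apply, Pi.add_apply, a1, b1]; ring
    · rw [Pi.add_apply, Pi.add_apply, Pi.add_apply, a2, b2]; ring
    · rw [Pi.add_apply, Pi.add_apply, Pi.add_apply, a3, b3]; ring
    · rw [Pi.add_apply, Pi.add_apply, Pi.add_apply, Pi.add_apply, a4, b4]; ring
  zero_mem' := by simp
  smul_mem' := by
    rintro c a ⟨a1, a2, a3, a4⟩
    refine ⟨?_, ?_, ?_, ?_⟩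
    · rw [Pi.smul_apply, Pi.smul_apply, Pi.smul_apply, a1]; simp only [smul_eq_mul]; ring
    · rw [Pi.smul_apply, Pi.smul_apply, Pi.smul_apply, a2]; simp only [smul_eq_mul]; ring
    · rw [Pi.smul_apply, Pi.smul_apply, Pi.smul_apply, a3]; simp only [smul_eq_mul]; ring
    · rw [Pi.smul_apply, Pi.smul_apply, Pi.smul_apply, Pi.smul_apply, a4]
      simp only [smul_eq_mul]; ring

/-- The range space. -/
def YT : Type := YSub 𝕜

noncomputable instance : NormedAddCommGroup (YT 𝕜) := inferInstanceAs (NormedAddCommGroup (YSub 𝕜))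

noncomputable instance : NormedSpace 𝕜 (YT 𝕜) := inferInstanceAs (NormedSpace 𝕜 (YSub 𝕜))

instance : FiniteDimensional 𝕜 (YT 𝕜) := inferInstanceAs (FiniteDimensional 𝕜 (YSub 𝕜))

variable {𝕜}

/-- The coordinates. -/
noncomputable def co : YT 𝕜 →ₗ[𝕜] (Fin 7 → 𝕜) := (YSub 𝕜).subtype

lemma co_mem (y : YT 𝕜) : co y ∈ YSub 𝕜 := (show YSub 𝕜 from y).2

lemma norm_co (y : YT 𝕜) : ‖co y‖ = ‖y‖ := rfl

lemma continuous_co : Continuous (co : YT 𝕜 → (Fin 7 → 𝕜)) := continuous_subtype_val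

variable {X : Type} [NormedAddCommGroup X] [NormedSpace 𝕜 X]

/-- The seven vectors attached to a triple. -/
noncomputable def seven (x : Fin 3 → X) : Fin 7 → X :=
  ![x 0, x 1, x 2, (10 / 19 : 𝕜) • (x 0 + x 1), (10 / 19 : 𝕜) • (x 1 + x 2),
    (10 / 19 : 𝕜) • (x 2 + x 0), (5 / 13 : 𝕜) • (x 0 + x 1 + x 2)]

variable (𝕜 X) in
/-- The operators which come from triples of elements of `X`. -/
def HH : Submodule 𝕜 (Dual 𝕜 X →L[𝕜] YT 𝕜) where
  carrier := {T | ∃ x : Fin 3 → X, ∀ (f : StrongDual 𝕜 X) (j : Fin 7),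
    co (T (toD f)) j = f (seven (𝕜 := 𝕜) x j)}
  add_mem' := by
    rintro S T ⟨x, hx⟩ ⟨y, hy⟩
    refine ⟨x + y, fun f j => ?_⟩
    rw [add_apply, map_add, Pi.add_apply, hx, hy, ← map_add]
    congr 1
    fin_cases j <;> simp [seven] <;> module
  zero_mem' := by
    refine ⟨0, fun f j => ?_⟩
    rw [zero_apply, map_zero, Pi.zero_apply]
    fin_cases j <;> simp [seven]
  smul_mem' := by
    rintro c T ⟨x, hx⟩
    refine ⟨c • x, fun f j => ?_⟩
    rw [smul_apply, map_smul, Pi.smul_apply, hx, ← map_smul]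
    congr 1
    fin_cases j <;> simp [seven] <;> module

lemma mem_HH {T : Dual 𝕜 X →L[𝕜] YT 𝕜} : T ∈ HH 𝕜 X ↔
    ∃ x : Fin 3 → X, ∀ (f : StrongDual 𝕜 X) (j : Fin 7),
    co (T (toD f)) j = f (seven (𝕜 := 𝕜) x j) := Iff.rfl

/-- A criterion to be given by a triple. -/
lemma mem_HH_of {T : Dual 𝕜 X →L[𝕜] YT 𝕜} (x : Fin 3 → X)
    (h0 : ∀ f : StrongDual 𝕜 X, co (T (toD f)) 0 = f (x 0))
    (h1 : ∀ f : StrongDual 𝕜 X, co (T (toD f)) 1 = f (x 1))
    (h2 : ∀ f : StrongDual 𝕜 X, co (T (toD f)) 2 = f (x 2)) :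
    T ∈ HH 𝕜 X := by
  refine ⟨x, fun f j => ?_⟩
  obtain ⟨e3, e4, e5, e6⟩ := co_mem (T (toD f))
  fin_cases j
  · exact h0 f
  · exact h1 f
  · exact h2 f
  · show co (T (toD f)) 3 = f ((10 / 19 : 𝕜) • (x 0 + x 1))
    rw [e3, h0, h1, map_smul, map_add, smul_eq_mul]
  · show co (T (toD f)) 4 = f ((10 / 19 : 𝕜) • (x 1 + x 2))
    rw [e4, h1, h2, map_smul, map_add, smul_eq_mul]
  · show co (T (toD f)) 5 = f ((10 / 19 : 𝕜) • (x 2 + x 0))
    rw [e5, h2, h0, map_smul, map_add, smul_eq_mul]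
  · show co (T (toD f)) 6 = f ((5 / 13 : 𝕜) • (x 0 + x 1 + x 2))
    rw [e6, h0, h1, h2, map_smul, map_add, map_add, smul_eq_mul]

lemma norm_seven_le {T : Dual 𝕜 X →L[𝕜] YT 𝕜} {x : Fin 3 → X}
    (hx : ∀ (f : StrongDual 𝕜 X) (j : Fin 7), co (T (toD f)) j = f (seven (𝕜 := 𝕜) x j))
    (j : Fin 7) : ‖seven (𝕜 := 𝕜) x j‖ ≤ ‖T‖ := by
  obtain ⟨f, hf1, hf2⟩ := exists_dual_vector'' 𝕜 (seven (𝕜 := 𝕜) x j)
  have h1 : ‖f (seven (𝕜 := 𝕜) x j)‖ = ‖seven (𝕜 := 𝕜) x j‖ := by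
    rw [hf2, RCLike.norm_ofReal, abs_norm]
  rw [← h1, ← hx]
  refine (norm_le_pi_norm (co (T (toD f))) j).trans ?_
  rw [norm_co]
  have h2 : ‖T (toD f)‖ ≤ ‖T‖ * ‖f‖ := T.le_opNorm (toD f)
  have h3 : ‖T‖ * ‖f‖ ≤ ‖T‖ * 1 := mul_le_mul_of_nonneg_left hf1 (norm_nonneg T)
  rw [mul_one] at h3
  exact h2.trans h3

lemma norm_le_of_seven {T : Dual 𝕜 X →L[𝕜] YT 𝕜} {x : Fin 3 → X}
    (hx : ∀ (f : StrongDual 𝕜 X) (j : Fin 7), co (T (toD f)) j = f (seven (𝕜 := 𝕜) x j))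
    {C : ℝ} (hC : 0 ≤ C) (h : ∀ j, ‖seven (𝕜 := 𝕜) x j‖ ≤ C) : ‖T‖ ≤ C := by
  apply ContinuousLinearMap.opNorm_le_bound _ hC
  intro f
  rw [← norm_co, pi_norm_le_iff_of_nonneg (mul_nonneg hC (norm_nonneg f))]
  intro j
  have h1 : co (T f) j = (show StrongDual 𝕜 X from f) (seven (𝕜 := 𝕜) x j) := hx f j
  rw [h1, mul_comm]
  exact ((show StrongDual 𝕜 X from f).le_opNorm _).trans
    (mul_le_mul_of_nonneg_left (h j) (norm_nonneg f))

/-- The rank one operators. -/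
lemma tensor_mem (x : X) (y : YT 𝕜) (T : Dual 𝕜 X →L[𝕜] YT 𝕜)
    (hT : ∀ f : StrongDual 𝕜 X, T (toD f) = f x • y) : T ∈ HH 𝕜 X := by
  apply mem_HH_of (fun j => ![co y 0, co y 1, co y 2] j • x)
  · intro f
    rw [hT, map_smul, map_smul, Pi.smul_apply, smul_eq_mul, smul_eq_mul, mul_comm]
    rfl
  · intro f
    rw [hT, map_smul, map_smul, Pi.smul_apply, smul_eq_mul, smul_eq_mul, mul_comm]
    rfl
  · intro f
    rw [hT, map_smul, map_smul, Pi.smul_apply, smul_eq_mul, smul_eq_mul, mul_comm]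
    rfl

lemma weakStar {T : Dual 𝕜 X →L[𝕜] YT 𝕜} (hT : T ∈ HH 𝕜 X) : WeakStarWeak T := by
  obtain ⟨x, hx⟩ := hT
  have h1 : Continuous (fun f : WeakDual 𝕜 X => T (toD (WeakDual.toStrongDual f))) := by
    have h0 : Continuous (fun f : WeakDual 𝕜 X => co (T (toD (WeakDual.toStrongDual f)))) := by
      apply continuous_pi
      intro j
      have h2 : (fun f : WeakDual 𝕜 X => co (T (toD (WeakDual.toStrongDual f))) j) =
          fun f : WeakDual 𝕜 X => f (seven (𝕜 := 𝕜) x j) := by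
        funext f
        exact hx _ j
      rw [h2]
      exact WeakDual.eval_continuous _
    exact Continuous.subtype_mk (p := fun v => v ∈ YSub 𝕜) h0 (fun f => co_mem _)
  exact (toWeakSpaceCLM 𝕜 (YT 𝕜)).continuous.comp h1

lemma isClosed_HH [CompleteSpace X] :
    IsClosed (HH 𝕜 X : Set (Dual 𝕜 X →L[𝕜] YT 𝕜)) := by
  rw [← isSeqClosed_iff_isClosed]
  intro T T' hT hlim
  choose x hx using hT
  have hsub : ∀ m n : ℕ, ∀ (f : StrongDual 𝕜 X) (j : Fin 7),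
      co ((T m - T n) (toD f)) j = f (seven (𝕜 := 𝕜) (x m - x n) j) := by
    intro m n f j
    rw [sub_apply, map_sub, Pi.sub_apply, hx, hx, ← map_sub]
    congr 1
    fin_cases j <;> simp [seven] <;> module
  have hcau : ∀ k : Fin 3, CauchySeq (fun n => x n k) := by
    intro k
    have hTc := hlim.cauchySeq
    rw [Metric.cauchySeq_iff] at hTc ⊢
    intro ε hε
    obtain ⟨N, hN⟩ := hTc ε hε
    refine ⟨N, fun m hm n hn => lt_of_le_of_lt ?_ (hN m hm n hn)⟩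
    rw [dist_eq_norm, dist_eq_norm]
    fin_cases k
    · exact norm_seven_le (hsub m n) 0
    · exact norm_seven_le (hsub m n) 1
    · exact norm_seven_le (hsub m n) 2
  have hlimx : ∀ k : Fin 3, ∃ l, Tendsto (fun n => x n k) atTop (𝓝 l) := fun k =>
    cauchySeq_tendsto_of_complete (hcau k)
  choose l hl using hlimx
  have hcoord : ∀ (f : StrongDual 𝕜 X) (j : Fin 7),
      Tendsto (fun n => co (T n (toD f)) j) atTop (𝓝 (co (T' (toD f)) j)) := by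
    intro f j
    have h1 : Tendsto (fun n => T n (toD f)) atTop (𝓝 (T' (toD f))) := by
      rw [tendsto_iff_norm_sub_tendsto_zero] at hlim ⊢
      have h2 := hlim.mul_const ‖toD f‖
      rw [zero_mul] at h2
      refine squeeze_zero (fun n => norm_nonneg _) (fun n => ?_) h2
      rw [← sub_apply]
      exact (T n - T').le_opNorm (toD f)
    exact (((continuous_apply j).comp continuous_co).tendsto _).comp h1
  have hk : ∀ (f : StrongDual 𝕜 X) (k : Fin 3), Tendsto (fun n => f (x n k)) atTop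
      (𝓝 (f (l k))) := fun f k => (f.continuous.tendsto _).comp (hl k)
  apply mem_HH_of l
  · intro f
    refine tendsto_nhds_unique (hcoord f 0) ((hk f 0).congr fun n => ?_)
    exact (hx n f 0).symm
  · intro f
    refine tendsto_nhds_unique (hcoord f 1) ((hk f 1).congr fun n => ?_)
    exact (hx n f 1).symm
  · intro f
    refine tendsto_nhds_unique (hcoord f 2) ((hk f 2).congr fun n => ?_)
    exact (hx n f 2).symm

/-- The operator attached to a triple. -/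
lemma exists_op (x : Fin 3 → X) : ∃ T ∈ HH 𝕜 X, ∀ (f : StrongDual 𝕜 X) (j : Fin 7),
    co (T (toD f)) j = f (seven (𝕜 := 𝕜) x j) := by
  let L : Dual 𝕜 X →ₗ[𝕜] YT 𝕜 :=
    { toFun := fun g => (⟨fun j => (show StrongDual 𝕜 X from g) (seven (𝕜 := 𝕜) x j), by
        let f : StrongDual 𝕜 X := g
        refine ⟨?_, ?_, ?_, ?_⟩
        · show f ((10 / 19 : 𝕜) • (x 0 + x 1)) = 10 / 19 * (f (x 0) + f (x 1))
          rw [map_smul, map_add, smul_eq_mul]
        · show f ((10 / 19 : 𝕜) • (x 1 + x 2)) = 10 / 19 * (f (x 1) + f (x 2))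
          rw [map_smul, map_add, smul_eq_mul]
        · show f ((10 / 19 : 𝕜) • (x 2 + x 0)) = 10 / 19 * (f (x 2) + f (x 0))
          rw [map_smul, map_add, smul_eq_mul]
        · show f ((5 / 13 : 𝕜) • (x 0 + x 1 + x 2)) = 5 / 13 * (f (x 0) + f (x 1) + f (x 2))
          rw [map_smul, map_add, map_add, smul_eq_mul]⟩ : YSub 𝕜)
      map_add' := fun f g => Subtype.ext rfl
      map_smul' := fun c f => Subtype.ext rfl }
  let C : ℝ := ∑ j, ‖seven (𝕜 := 𝕜) x j‖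
  have hC : ∀ j, ‖seven (𝕜 := 𝕜) x j‖ ≤ C := fun j =>
    Finset.single_le_sum (f := fun j => ‖seven (𝕜 := 𝕜) x j‖) (fun j _ => norm_nonneg _)
      (Finset.mem_univ j)
  have hC0 : 0 ≤ C := Finset.sum_nonneg fun j _ => norm_nonneg _
  let T : Dual 𝕜 X →L[𝕜] YT 𝕜 := L.mkContinuous C (by
    intro g
    let f : StrongDual 𝕜 X := g
    show ‖co (L g)‖ ≤ C * ‖f‖
    rw [pi_norm_le_iff_of_nonneg (mul_nonneg hC0 (norm_nonneg f))]
    intro j
    show ‖f (seven (𝕜 := 𝕜) x j)‖ ≤ C * ‖f‖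
    rw [mul_comm]
    exact (f.le_opNorm _).trans (mul_le_mul_of_nonneg_left (hC j) (norm_nonneg f)))
  exact ⟨T, ⟨x, fun f j => rfl⟩, fun f j => rfl⟩

end range

section main

variable {𝕜 X : Type} [RCLike 𝕜] [NormedAddCommGroup X] [NormedSpace 𝕜 X]

lemma norm_1019 : ‖(10 / 19 : 𝕜)‖ = 10 / 19 := by
  rw [norm_div]
  simp

lemma norm_513 : ‖(5 / 13 : 𝕜)‖ = 5 / 13 := by
  rw [norm_div]
  simp

lemma norm_of_nonneg' (c : ℝ) (hc : 0 ≤ c) : ‖(c : 𝕜)‖ = c := by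
  rw [RCLike.norm_ofReal, abs_of_nonneg hc]

/-- The numerical estimates for one pair; `a`, `b`, `c` is a permutation of the triple. -/
lemma pair_bound {N q s : ℝ} {v : Fin 7 → ℝ} (j : Fin 7) (hq : v j ≤ 100 + q)
    (hother : ∀ i, i ≠ j → v i ≤ 96) (hN : ∀ C : ℝ, 0 ≤ C → (∀ i, v i ≤ C) → N ≤ C)
    (hs : (1 - 1 / 10000) * (100 + 1) ≤ N) (hq0 : 0 ≤ q) (hsq : s = 1 - 1 / 10000 * 101) :
    s ≤ q := by
  by_contra hcon
  push Not at hcon
  have h1 : N ≤ max (100 + q) 96 := by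
    apply hN _ (by positivity)
    intro i
    by_cases hi : i = j
    · rw [hi]; exact hq.trans (le_max_left _ _)
    · exact (hother i hi).trans (le_max_right _ _)
  rcases max_cases (100 + q) 96 with ⟨h2, _⟩ | ⟨h2, _⟩
  · rw [h2] at h1
    linarith
  · rw [h2] at h1
    linarith

lemma not_oh (hX : Hlawka X) (u : X) (hu : ‖u‖ = 1) : ¬ OH 𝕜 ↥(HH 𝕜 X) := by
  intro hOH
  -- the three operators
  have hu' : ∀ c : ℝ, ‖((c : ℝ) : 𝕜) • u‖ = |c| := by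
    intro c
    rw [norm_smul, hu, mul_one, RCLike.norm_ofReal]
  let t : Fin 3 → Fin 3 → X := fun i k => if k = i then 0 else ((19 / 20 : ℝ) : 𝕜) • u
  have hT : ∀ i, ∃ T ∈ HH 𝕜 X, ∀ (f : StrongDual 𝕜 X) (j : Fin 7),
      co (T (toD f)) j = f (seven (𝕜 := 𝕜) (t i) j) := fun i => exists_op (t i)
  choose T hTH hT using hT
  let E : Submodule 𝕜 (HH 𝕜 X) := Submodule.span 𝕜 (Set.range fun i => (⟨T i, hTH i⟩ : HH 𝕜 X))
  have hE : FiniteDimensional 𝕜 E := FiniteDimensional.span_of_finite 𝕜 (Set.finite_range _)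
  obtain ⟨S, hS1, hS⟩ := hOH E hE (1 / 10000) (by norm_num)
  obtain ⟨s, hs⟩ := S.2
  have hs1 : ∀ j, ‖seven (𝕜 := 𝕜) s j‖ ≤ 1 := by
    intro j
    have h1 := norm_seven_le hs j
    have h2 : ‖(S : Dual 𝕜 X →L[𝕜] YT 𝕜)‖ = 1 := hS1
    rwa [h2] at h1
  -- the sums
  have hmain : ∀ (i : Fin 3) (j : Fin 7), (∀ v : Fin 3 → X, ‖seven (𝕜 := 𝕜) v j‖ =
      10 / 19 * ‖v (i + 1) + v (i + 2)‖) → (∀ m, m ≠ j →
      ‖seven (𝕜 := 𝕜) (t i) m‖ ≤ 19 / 20) → 1 - 1 / 10000 * 101 ≤ ‖seven (𝕜 := 𝕜) s j‖ := by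
    intro i j hj hm
    have hi1 : i + 1 ≠ i := by fin_cases i <;> decide
    have hi2 : i + 2 ≠ i := by fin_cases i <;> decide
    have hTj : ‖seven (𝕜 := 𝕜) (t i) j‖ = 1 := by
      rw [hj]
      have e1 : t i (i + 1) = ((19 / 20 : ℝ) : 𝕜) • u := if_neg hi1
      have e2 : t i (i + 2) = ((19 / 20 : ℝ) : 𝕜) • u := if_neg hi2
      rw [e1, e2, ← add_smul, ← RCLike.ofReal_add, hu']
      norm_num
    have hmem : ((100 : ℝ) : 𝕜) • (⟨T i, hTH i⟩ : HH 𝕜 X) ∈ E :=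
      E.smul_mem _ (Submodule.subset_span ⟨i, rfl⟩)
    have h1 := hS _ hmem
    have hTn : 1 ≤ ‖T i‖ := by
      have := norm_seven_le (hT i) j
      rw [hTj] at this
      exact this
    have h2 : 100 ≤ ‖((100 : ℝ) : 𝕜) • (⟨T i, hTH i⟩ : HH 𝕜 X)‖ := by
      show 100 ≤ ‖((100 : ℝ) : 𝕜) • T i‖
      rw [norm_smul, norm_of_nonneg' 100 (by norm_num)]
      linarith
    -- the sum as an operator given by a triple
    have hsum : ∀ (f : StrongDual 𝕜 X) (m : Fin 7),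
        co ((((100 : ℝ) : 𝕜) • T i + (S : Dual 𝕜 X →L[𝕜] YT 𝕜)) (toD f)) m =
        f (seven (𝕜 := 𝕜) (((100 : ℝ) : 𝕜) • t i + s) m) := by
      intro f m
      rw [add_apply, smul_apply, map_add, map_smul, Pi.add_apply,
        Pi.smul_apply, hT, hs, ← map_smul, ← map_add]
      congr 1
      fin_cases m <;> simp [seven] <;> module
    have hseven : ∀ m, ‖seven (𝕜 := 𝕜) (((100 : ℝ) : 𝕜) • t i + s) m‖ ≤
        100 * ‖seven (𝕜 := 𝕜) (t i) m‖ + ‖seven (𝕜 := 𝕜) s m‖ := by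
      intro m
      have e : seven (𝕜 := 𝕜) (((100 : ℝ) : 𝕜) • t i + s) m =
          ((100 : ℝ) : 𝕜) • seven (𝕜 := 𝕜) (t i) m + seven (𝕜 := 𝕜) s m := by
        fin_cases m <;> simp [seven] <;> module
      rw [e]
      refine (norm_add_le _ _).trans ?_
      rw [norm_smul, norm_of_nonneg' 100 (by norm_num)]
    refine pair_bound (N := ‖((100 : ℝ) : 𝕜) • T i + (S : Dual 𝕜 X →L[𝕜] YT 𝕜)‖)
      (v := fun m => ‖seven (𝕜 := 𝕜) (((100 : ℝ) : 𝕜) • t i + s) m‖) j ?_ ?_ ?_ ?_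
      (norm_nonneg _) rfl
    · have := hseven j
      rw [hTj] at this
      linarith
    · intro m hmj
      have h3 := hseven m
      have h4 := hm m hmj
      have h5 := hs1 m
      show ‖seven (𝕜 := 𝕜) (((100 : ℝ) : 𝕜) • t i + s) m‖ ≤ 96
      linarith
    · intro C hC hv
      exact norm_le_of_seven hsum hC hv
    · have h3 : ‖((100 : ℝ) : 𝕜) • (⟨T i, hTH i⟩ : HH 𝕜 X) + S‖ =
          ‖((100 : ℝ) : 𝕜) • T i + (S : Dual 𝕜 X →L[𝕜] YT 𝕜)‖ := rfl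
      rw [← h3]
      refine le_trans ?_ h1
      rw [hS1]
      apply mul_le_mul_of_nonneg_left _ (by norm_num)
      linarith
  have n1 : ‖((19 / 20 : ℝ) : 𝕜) • u‖ = 19 / 20 := by rw [hu']; norm_num
  have n2 : ‖((19 / 20 : ℝ) : 𝕜) • u + ((19 / 20 : ℝ) : 𝕜) • u‖ = 19 / 10 := by
    rw [← add_smul, ← RCLike.ofReal_add, hu']; norm_num
  -- the three pairs
  have p0 : 1 - 1 / 10000 * 101 ≤ ‖seven (𝕜 := 𝕜) s 4‖ := by
    apply hmain 0 4
    · intro v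
      show ‖(10 / 19 : 𝕜) • (v 1 + v 2)‖ = _
      rw [norm_smul, norm_1019]
      rfl
    · intro m hm
      fin_cases m
      · show ‖(0 : X)‖ ≤ 19 / 20
        rw [norm_zero]; norm_num
      · show ‖((19 / 20 : ℝ) : 𝕜) • u‖ ≤ 19 / 20
        rw [n1]
      · show ‖((19 / 20 : ℝ) : 𝕜) • u‖ ≤ 19 / 20
        rw [n1]
      · show ‖(10 / 19 : 𝕜) • ((0 : X) + ((19 / 20 : ℝ) : 𝕜) • u)‖ ≤ 19 / 20
        rw [zero_add, norm_smul, norm_1019, n1]; norm_num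
      · exact absurd rfl hm
      · show ‖(10 / 19 : 𝕜) • (((19 / 20 : ℝ) : 𝕜) • u + (0 : X))‖ ≤ 19 / 20
        rw [add_zero, norm_smul, norm_1019, n1]; norm_num
      · show ‖(5 / 13 : 𝕜) • ((0 : X) + ((19 / 20 : ℝ) : 𝕜) • u + ((19 / 20 : ℝ) : 𝕜) • u)‖ ≤
          19 / 20
        rw [zero_add, norm_smul, norm_513, n2]; norm_num
  have p1 : 1 - 1 / 10000 * 101 ≤ ‖seven (𝕜 := 𝕜) s 5‖ := by
    apply hmain 1 5
    · intro v
      show ‖(10 / 19 : 𝕜) • (v 2 + v 0)‖ = _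
      rw [norm_smul, norm_1019]
      rfl
    · intro m hm
      fin_cases m
      · show ‖((19 / 20 : ℝ) : 𝕜) • u‖ ≤ 19 / 20
        rw [n1]
      · show ‖(0 : X)‖ ≤ 19 / 20
        rw [norm_zero]; norm_num
      · show ‖((19 / 20 : ℝ) : 𝕜) • u‖ ≤ 19 / 20
        rw [n1]
      · show ‖(10 / 19 : 𝕜) • (((19 / 20 : ℝ) : 𝕜) • u + (0 : X))‖ ≤ 19 / 20
        rw [add_zero, norm_smul, norm_1019, n1]; norm_num
      · show ‖(10 / 19 : 𝕜) • ((0 : X) + ((19 / 20 : ℝ) : 𝕜) • u)‖ ≤ 19 / 20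
        rw [zero_add, norm_smul, norm_1019, n1]; norm_num
      · exact absurd rfl hm
      · show ‖(5 / 13 : 𝕜) • (((19 / 20 : ℝ) : 𝕜) • u + (0 : X) + ((19 / 20 : ℝ) : 𝕜) • u)‖ ≤
          19 / 20
        rw [add_zero, norm_smul, norm_513, n2]; norm_num
  have p2 : 1 - 1 / 10000 * 101 ≤ ‖seven (𝕜 := 𝕜) s 3‖ := by
    apply hmain 2 3
    · intro v
      show ‖(10 / 19 : 𝕜) • (v 0 + v 1)‖ = _
      rw [norm_smul, norm_1019]
      rfl
    · intro m hm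
      fin_cases m
      · show ‖((19 / 20 : ℝ) : 𝕜) • u‖ ≤ 19 / 20
        rw [n1]
      · show ‖((19 / 20 : ℝ) : 𝕜) • u‖ ≤ 19 / 20
        rw [n1]
      · show ‖(0 : X)‖ ≤ 19 / 20
        rw [norm_zero]; norm_num
      · exact absurd rfl hm
      · show ‖(10 / 19 : 𝕜) • (((19 / 20 : ℝ) : 𝕜) • u + (0 : X))‖ ≤ 19 / 20
        rw [add_zero, norm_smul, norm_1019, n1]; norm_num
      · show ‖(10 / 19 : 𝕜) • ((0 : X) + ((19 / 20 : ℝ) : 𝕜) • u)‖ ≤ 19 / 20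
        rw [zero_add, norm_smul, norm_1019, n1]; norm_num
      · show ‖(5 / 13 : 𝕜) • (((19 / 20 : ℝ) : 𝕜) • u + ((19 / 20 : ℝ) : 𝕜) • u + (0 : X))‖ ≤
          19 / 20
        rw [add_zero, norm_smul, norm_513, n2]; norm_num
  -- Hlawka's inequality
  have h0 : ‖s 0‖ ≤ 1 := hs1 0
  have h1 : ‖s 1‖ ≤ 1 := hs1 1
  have h2 : ‖s 2‖ ≤ 1 := hs1 2
  have h6 : ‖(5 / 13 : 𝕜) • (s 0 + s 1 + s 2)‖ ≤ 1 := hs1 6
  have p0' : 1 - 1 / 10000 * 101 ≤ ‖(10 / 19 : 𝕜) • (s 1 + s 2)‖ := p0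
  have p1' : 1 - 1 / 10000 * 101 ≤ ‖(10 / 19 : 𝕜) • (s 2 + s 0)‖ := p1
  have p2' : 1 - 1 / 10000 * 101 ≤ ‖(10 / 19 : 𝕜) • (s 0 + s 1)‖ := p2
  rw [norm_smul, norm_1019] at p0' p1' p2'
  rw [norm_smul, norm_513] at h6
  have hH := hX (s 0) (s 1) (s 2)
  linarith

end main

/-- Over both scalar fields there are Banach spaces `X`, `Y`, with `X` octahedral, and a closed
subspace `H` of `L(X*, Y)` which contains `X ⊗ Y` and consists of weak*-to-weakly continuous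
operators, such that `H` is not octahedral. -/
theorem result (𝕜 : Type) [RCLike 𝕜] : ∃ (X Y : Type) (_ : NormedAddCommGroup X)
    (_ : NormedSpace 𝕜 X) (_ : CompleteSpace X) (_ : NormedAddCommGroup Y) (_ : NormedSpace 𝕜 Y)
    (_ : CompleteSpace Y) (H : Submodule 𝕜 (Dual 𝕜 X →L[𝕜] Y)),
    Admissible H ∧ OH 𝕜 X ∧ ¬ OHsub H := by
  have hc : CompleteSpace (YT 𝕜) := FiniteDimensional.complete 𝕜 (YT 𝕜)
  exact ⟨L1 𝕜, YT 𝕜, inferInstance, inferInstance, inferInstance, inferInstance, inferInstance,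
    hc, HH 𝕜 (L1 𝕜), ⟨isClosed_HH, fun x y T hT => tensor_mem x y T hT,
    fun T hT => weakStar hT⟩, oh_L1, not_oh (𝕜 := 𝕜) hlawka_L1 (ee 0) (norm_ee 0)⟩

end Pool.Agent.Results.MP_372fbd_an.HlawkaNotOctahedral
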